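import Mathlib
import Pool.Agent.Q115.ModGrp
import Pool.Agent.Q115.A5Sub

set_option autoImplicit false

/-!
# Soluble and absolutely simple group-theoretic numbers: both sets are finite

For every integer `k ≥ 19` there is a finite group `G` that is neither soluble nor simple and has
`ie(G) = k`.  The groups are `A₅ × D` with `D` a `2`-group: if `|D| = 2 ^ a` then
`ie(A₅ × D) = 3 a + 7 + ie(D)`, and `D` is taken cyclic, modular, or modular times `C₂`.
-/

namespace Pool.Agent.Results.MP_927db0_al.BothSetsFinite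

open Pool.Agent.Q115 Pool.Agent.Q115.A5Sub Pool.Agent.Q115.ModGrp

/-- The set of the orders of the non-normal subgroups of `G`. -/
def nonNormalOrders (G : Type) [Group G] : Set ℕ :=
  {n | ∃ H : Subgroup G, Nat.card H = n ∧ ¬ H.Normal}

/-- `ie G`: the number of positive integers `n` such that `G` has a non-normal subgroup of
order `n`. -/
noncomputable def ie (G : Type) [Group G] : ℕ := (nonNormalOrders G).ncard

/-- `k` is a soluble group-theoretic number. -/
def IsSolubleNumber (k : ℕ) : Prop :=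
  0 < k ∧ ∀ (G : Type) [Group G] [Finite G], ie G = k → Group.IsSolvable G

/-- `k` is a simple group-theoretic number. -/
def IsSimpleNumber (k : ℕ) : Prop :=
  0 < k ∧ ∃ (G : Type) (_ : Group G) (_ : Finite G), IsSimpleGroup G ∧ ie G = k

/-- `k` is an absolutely simple group-theoretic number. -/
def IsAbsolutelySimpleNumber (k : ℕ) : Prop :=
  IsSimpleNumber k ∧
    ¬ ∃ (G : Type) (_ : Group G) (_ : Finite G),
      ¬ Group.IsSolvable G ∧ ¬ IsSimpleGroup G ∧ ie G = k

/-! ### Arithmetic of the orders -/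

/-- the orders `c * 2 ^ i`, `c` the order of a nontrivial proper subgroup of `A₅`, `i ≤ a` -/
def F (a : ℕ) : Finset ℕ :=
  (Finset.Icc 1 (a + 2)).image (fun j => 2 ^ j) ∪
    ((Finset.range (a + 3)).image (fun j => 3 * 2 ^ j) ∪
      (Finset.range (a + 2)).image (fun j => 5 * 2 ^ j))

theorem mem_F {a n : ℕ} : n ∈ F a ↔ (∃ j, 1 ≤ j ∧ j ≤ a + 2 ∧ n = 2 ^ j) ∨
    (∃ j, j ≤ a + 2 ∧ n = 3 * 2 ^ j) ∨ (∃ j, j ≤ a + 1 ∧ n = 5 * 2 ^ j) := by
  simp only [F, Finset.mem_union, Finset.mem_image, Finset.mem_Icc, Finset.mem_range]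
  constructor
  · rintro (⟨j, ⟨h1, h2⟩, rfl⟩ | ⟨j, h1, rfl⟩ | ⟨j, h1, rfl⟩)
    · exact Or.inl ⟨j, h1, h2, rfl⟩
    · exact Or.inr (Or.inl ⟨j, by omega, rfl⟩)
    · exact Or.inr (Or.inr ⟨j, by omega, rfl⟩)
  · rintro (⟨j, h1, h2, rfl⟩ | ⟨j, h1, rfl⟩ | ⟨j, h1, rfl⟩)
    · exact Or.inl ⟨j, ⟨h1, h2⟩, rfl⟩
    · exact Or.inr (Or.inl ⟨j, by omega, rfl⟩)
    · exact Or.inr (Or.inr ⟨j, by omega, rfl⟩)

theorem mul_mem_F {a c i : ℕ} (hc : c ∈ ({2, 3, 4, 5, 6, 10, 12} : Finset ℕ)) (hi : i ≤ a) :
    c * 2 ^ i ∈ F a := by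
  rw [mem_F]
  simp only [Finset.mem_insert, Finset.mem_singleton] at hc
  rcases hc with rfl | rfl | rfl | rfl | rfl | rfl | rfl
  · exact Or.inl ⟨i + 1, by omega, by omega, by ring⟩
  · exact Or.inr (Or.inl ⟨i, by omega, rfl⟩)
  · exact Or.inl ⟨i + 2, by omega, by omega, by ring⟩
  · exact Or.inr (Or.inr ⟨i, by omega, rfl⟩)
  · exact Or.inr (Or.inl ⟨i + 1, by omega, by ring⟩)
  · exact Or.inr (Or.inr ⟨i + 1, by omega, by ring⟩)
  · exact Or.inr (Or.inl ⟨i + 2, by omega, by ring⟩)

theorem exists_of_mem_F {a n : ℕ} (h : n ∈ F a) :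
    ∃ c ∈ ({2, 3, 4, 5, 6, 10, 12} : Finset ℕ), ∃ i ≤ a, n = c * 2 ^ i := by
  rw [mem_F] at h
  rcases h with ⟨j, h1, h2, rfl⟩ | ⟨j, h1, rfl⟩ | ⟨j, h1, rfl⟩
  · rcases Nat.lt_or_ge (a + 1) j with h | h
    · refine ⟨4, by decide, a, le_rfl, ?_⟩
      have : j = a + 2 := by omega
      subst this; ring
    · refine ⟨2, by decide, j - 1, by omega, ?_⟩
      obtain ⟨j, rfl⟩ : ∃ l, j = l + 1 := ⟨j - 1, by omega⟩
      rw [Nat.add_sub_cancel]; ring
  · rcases Nat.lt_or_ge a j with h | h
    · rcases Nat.lt_or_ge (a + 1) j with h' | h'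
      · refine ⟨12, by decide, a, le_rfl, ?_⟩
        have : j = a + 2 := by omega
        subst this; ring
      · refine ⟨6, by decide, a, le_rfl, ?_⟩
        have : j = a + 1 := by omega
        subst this; ring
    · exact ⟨3, by decide, j, h, rfl⟩
  · rcases Nat.lt_or_ge a j with h | h
    · refine ⟨10, by decide, a, le_rfl, ?_⟩
      have : j = a + 1 := by omega
      subst this; ring
    · exact ⟨5, by decide, j, h, rfl⟩

theorem three_not_dvd_two_pow (j : ℕ) : ¬ 3 ∣ 2 ^ j := by
  intro h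
  have := (Nat.prime_dvd_prime_iff_eq Nat.prime_three Nat.prime_two).1
    (Nat.prime_three.dvd_of_dvd_pow h)
  omega

theorem five_not_dvd_two_pow (j : ℕ) : ¬ 5 ∣ 2 ^ j := by
  intro h
  have := (Nat.prime_dvd_prime_iff_eq Nat.prime_five Nat.prime_two).1
    (Nat.prime_five.dvd_of_dvd_pow h)
  omega

theorem three_not_dvd_five (j : ℕ) : ¬ 3 ∣ 5 * 2 ^ j := by
  intro h
  rcases (Nat.prime_three.dvd_mul).1 h with h | h
  · revert h; decide
  · exact three_not_dvd_two_pow j h

theorem five_not_dvd_three (j : ℕ) : ¬ 5 ∣ 3 * 2 ^ j := by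
  intro h
  rcases (Nat.prime_five.dvd_mul).1 h with h | h
  · revert h; decide
  · exact five_not_dvd_two_pow j h

theorem not_dvd_of_mem_F {a n : ℕ} (h : n ∈ F a) : ¬ 60 ∣ n := by
  intro h60
  have h3 : 3 ∣ n := dvd_trans (by norm_num) h60
  have h5 : 5 ∣ n := dvd_trans (by norm_num) h60
  rw [mem_F] at h
  rcases h with ⟨j, h1, h2, rfl⟩ | ⟨j, h1, rfl⟩ | ⟨j, h1, rfl⟩
  · exact three_not_dvd_two_pow j h3
  · exact five_not_dvd_three j h5
  · exact three_not_dvd_five j h3

theorem card_F (a : ℕ) : (F a).card = 3 * a + 7 := by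
  have hinj : Function.Injective (fun j : ℕ => 2 ^ j) := Nat.pow_right_injective le_rfl
  have h3 : Function.Injective (fun j : ℕ => 3 * 2 ^ j) := fun x y h =>
    hinj (Nat.eq_of_mul_eq_mul_left (by norm_num) h)
  have h5 : Function.Injective (fun j : ℕ => 5 * 2 ^ j) := fun x y h =>
    hinj (Nat.eq_of_mul_eq_mul_left (by norm_num) h)
  rw [F, Finset.card_union_of_disjoint, Finset.card_union_of_disjoint,
    Finset.card_image_of_injective _ hinj, Finset.card_image_of_injective _ h3,
    Finset.card_image_of_injective _ h5, Nat.card_Icc, Finset.card_range, Finset.card_range]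
  · omega
  · rw [Finset.disjoint_left]
    simp only [Finset.mem_image]
    rintro _ ⟨j, -, rfl⟩ ⟨l, -, hl⟩
    exact three_not_dvd_five l (hl ▸ Dvd.intro _ rfl)
  · rw [Finset.disjoint_left]
    simp only [Finset.mem_image, Finset.mem_union]
    rintro _ ⟨j, -, rfl⟩ (⟨l, -, hl⟩ | ⟨l, -, hl⟩)
    · exact three_not_dvd_two_pow j (hl ▸ Dvd.intro _ rfl)
    · exact five_not_dvd_two_pow j (hl ▸ Dvd.intro _ rfl)

/-! ### Subgroups of `A₅ × D` -/

section main

variable {D : Type} [Group D]

/-- projection of a subgroup to `A₅` -/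
def pr (H : Subgroup (A5 × D)) : Subgroup A5 := H.map (MonoidHom.fst A5 D)

/-- trace of a subgroup on `D` -/
def tr (H : Subgroup (A5 × D)) : Subgroup D := H.comap (MonoidHom.inr A5 D)

theorem mem_pr {H : Subgroup (A5 × D)} {g : A5} : g ∈ pr H ↔ ∃ d : D, (g, d) ∈ H := by
  simp only [pr, Subgroup.mem_map, MonoidHom.coe_fst, Prod.exists, exists_and_right,
    exists_eq_right]

theorem mem_tr {H : Subgroup (A5 × D)} {d : D} : d ∈ tr H ↔ ((1 : A5), d) ∈ H := Iff.rfl

theorem card_eq (H : Subgroup (A5 × D)) : Nat.card H = Nat.card (pr H) * Nat.card (tr H) := by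
  set f : H →* A5 := (MonoidHom.fst A5 D).comp H.subtype with hf
  have h1 : f.range = pr H := by
    ext g
    rw [mem_pr]
    constructor
    · rintro ⟨⟨⟨x, d⟩, hx⟩, rfl⟩
      exact ⟨d, hx⟩
    · rintro ⟨d, hx⟩
      exact ⟨⟨(g, d), hx⟩, rfl⟩
  have h2 : Nat.card f.ker = Nat.card (tr H) := by
    refine Nat.card_congr
      { toFun := fun x => ⟨x.1.1.2, ?_⟩
        invFun := fun d => ⟨⟨(1, d.1), d.2⟩, rfl⟩
        left_inv := ?_
        right_inv := ?_ }
    · have h3 : x.1.1.1 = 1 := x.2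
      have h4 := x.1.2
      rw [mem_tr]
      have h5 : ((1 : A5), x.1.1.2) = x.1.1 := Prod.ext h3.symm rfl
      rw [h5]; exact h4
    · intro x
      have h3 : x.1.1.1 = 1 := x.2
      exact Subtype.ext (Subtype.ext (Prod.ext h3.symm rfl))
    · intro d; rfl
  rw [← h1, ← h2, ← Subgroup.index_ker, mul_comm]
  exact (Subgroup.card_mul_index f.ker).symm

theorem eq_prod_of_bot (H : Subgroup (A5 × D)) (h : pr H = ⊥) : H = (⊥ : Subgroup A5).prod (tr H) := by
  ext ⟨g, d⟩
  rw [Subgroup.mem_prod, mem_tr]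
  constructor
  · intro hx
    have h1 : g ∈ pr H := mem_pr.2 ⟨d, hx⟩
    rw [h, Subgroup.mem_bot] at h1
    subst h1
    exact ⟨Subgroup.mem_bot.2 rfl, hx⟩
  · rintro ⟨h1, h2⟩
    have : g = 1 := Subgroup.mem_bot.1 h1
    subst this
    exact h2

theorem eq_prod_of_top [Finite D] {a : ℕ} (hD : Nat.card D = 2 ^ a) (H : Subgroup (A5 × D))
    (h : pr H = ⊤) : H = (⊤ : Subgroup A5).prod (tr H) := by
  set N : Subgroup A5 := H.comap (MonoidHom.inl A5 D) with hN
  have hNm : ∀ g : A5, g ∈ N ↔ (g, (1 : D)) ∈ H := fun g => Iff.rfl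
  have hNn : N.Normal := by
    refine ⟨fun n hn g => ?_⟩
    have hg : g ∈ pr H := by rw [h]; trivial
    obtain ⟨d, hd⟩ := mem_pr.1 hg
    rw [hNm] at hn ⊢
    have h1 := H.mul_mem (H.mul_mem hd hn) (H.inv_mem hd)
    have h2 : (g, d) * (n, (1 : D)) * (g, d)⁻¹ = (g * n * g⁻¹, 1) := by
      ext
      · rfl
      · simp
    rwa [h2] at h1
  rcases hNn.eq_bot_or_eq_top with hb | ht
  · exfalso
    have hinj : Function.Injective ((MonoidHom.snd A5 D).comp H.subtype) := by
      rw [injective_iff_map_eq_one]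
      rintro ⟨⟨g, d⟩, hx⟩ (hd : d = 1)
      subst hd
      have h1 : g ∈ N := hx
      rw [hb, Subgroup.mem_bot] at h1
      subst h1
      rfl
    have h1 : Nat.card H ∣ 2 ^ a := by
      rw [← hD]
      exact Subgroup.card_dvd_of_injective _ hinj
    have h2 : 3 ∣ Nat.card H := by
      rw [card_eq, h]
      have : Nat.card (⊤ : Subgroup A5) = 60 := by rw [Subgroup.card_top, card_A5]
      rw [this]
      exact dvd_mul_of_dvd_left (by norm_num) _
    exact three_not_dvd_two_pow a (dvd_trans h2 h1)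
  · ext ⟨g, d⟩
    rw [Subgroup.mem_prod, mem_tr]
    have hg : (g, (1 : D)) ∈ H := by rw [← hNm, ht]; trivial
    constructor
    · intro hx
      refine ⟨trivial, ?_⟩
      have h1 := H.mul_mem (H.inv_mem hg) hx
      have h2 : (g, (1 : D))⁻¹ * (g, d) = (1, d) := by
        ext
        · simp
        · simp
      rwa [h2] at h1
    · rintro ⟨-, h1⟩
      have h2 : (g, (1 : D)) * (1, d) = (g, d) := by
        ext
        · simp
        · simp
      have h3 := H.mul_mem hg h1
      rwa [h2] at h3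

theorem nonNormalOrders_prod [Finite D] {a : ℕ} (hD : Nat.card D = 2 ^ a) :
    nonNormalOrders (A5 × D) = ↑(F a) ∪ (fun n => 60 * n) '' nonNormalOrders D := by
  have hp2 : Fact (Nat.Prime 2) := ⟨Nat.prime_two⟩
  ext n
  constructor
  · rintro ⟨H, rfl, hH⟩
    obtain ⟨i, hi, hK⟩ : ∃ i ≤ a, Nat.card (tr H) = 2 ^ i := by
      have : Nat.card (tr H) ∣ 2 ^ a := by rw [← hD]; exact Subgroup.card_subgroup_dvd_card _
      exact (Nat.dvd_prime_pow Nat.prime_two).1 this
    by_cases hb : pr H = ⊥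
    · have h1 := eq_prod_of_bot H hb
      left
      have hK1 : tr H ≠ ⊥ := by
        intro h2
        apply hH
        rw [h1, h2]
        infer_instance
      have hi1 : 1 ≤ i := by
        by_contra hcon
        have : i = 0 := by omega
        rw [this, pow_zero] at hK
        exact hK1 (Subgroup.card_eq_one.1 hK)
      rw [card_eq, hb, hK, Subgroup.card_bot, one_mul, Finset.mem_coe, mem_F]
      exact Or.inl ⟨i, hi1, by omega, rfl⟩
    · by_cases ht : pr H = ⊤
      · have h1 := eq_prod_of_top hD H ht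
        right
        refine ⟨Nat.card (tr H), ⟨tr H, rfl, ?_⟩, ?_⟩
        · intro h2
          apply hH
          rw [h1]
          infer_instance
        · rw [card_eq, ht, Subgroup.card_top, card_A5]
      · left
        rw [card_eq, hK]
        exact mul_mem_F (card_mem _ hb ht) hi
  · rintro (h | ⟨m, ⟨K, rfl, hK⟩, rfl⟩)
    · obtain ⟨c, hc, i, hi, rfl⟩ := exists_of_mem_F h
      obtain ⟨P, hP⟩ := exists_sub c hc
      obtain ⟨K, hK⟩ := Sylow.exists_subgroup_card_pow_prime (G := D) 2 (n := i)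
        (by rw [hD]; exact pow_dvd_pow _ hi)
      refine ⟨P.prod K, ?_, ?_⟩
      · rw [Nat.card_congr (Subgroup.prodEquiv P K).toEquiv, Nat.card_prod, hP, hK]
      · intro hn
        have hPn : P.Normal := by
          refine ⟨fun x hx g => ?_⟩
          have h1 := hn.conj_mem (x, 1) (Subgroup.mem_prod.2 ⟨hx, K.one_mem⟩) (g, 1)
          exact (Subgroup.mem_prod.1 h1).1
        rcases hPn.eq_bot_or_eq_top with h1 | h1
        · rw [h1, Subgroup.card_bot] at hP
          subst hP
          revert hc; decide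
        · rw [h1, Subgroup.card_top, card_A5] at hP
          subst hP
          revert hc; decide
    · refine ⟨(⊤ : Subgroup A5).prod K, ?_, ?_⟩
      · rw [Nat.card_congr (Subgroup.prodEquiv _ K).toEquiv, Nat.card_prod, Subgroup.card_top,
          card_A5]
      · intro hn
        apply hK
        refine ⟨fun x hx g => ?_⟩
        have h1 := hn.conj_mem (1, x) (Subgroup.mem_prod.2 ⟨trivial, hx⟩) (1, g)
        exact (Subgroup.mem_prod.1 h1).2

theorem finite_nonNormalOrders (G : Type) [Group G] [Finite G] : (nonNormalOrders G).Finite := by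
  refine (Set.finite_le_nat (Nat.card G)).subset ?_
  rintro n ⟨H, rfl, -⟩
  exact Subgroup.card_le_card_group H

theorem ie_prod [Finite D] {a : ℕ} (hD : Nat.card D = 2 ^ a) :
    ie (A5 × D) = 3 * a + 7 + ie D := by
  rw [ie, nonNormalOrders_prod hD, Set.ncard_union_eq _ (Finset.finite_toSet _)
    ((finite_nonNormalOrders D).image _), Set.ncard_coe_finset, card_F,
    Set.ncard_image_of_injective _ (fun x y h => Nat.eq_of_mul_eq_mul_left (by norm_num) h), ie]
  rw [Set.disjoint_left]
  rintro n h1 ⟨m, -, rfl⟩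
  exact not_dvd_of_mem_F h1 (Dvd.intro _ rfl)

theorem not_solvable : ¬ Group.IsSolvable (A5 × D) := by
  intro h
  have h1 : Group.IsSolvable A5 := by
    exact Group.isSolvable_of_surjective (f := MonoidHom.fst A5 D) Prod.fst_surjective
  have h2 := IsSimpleGroup.comm_iff_isSolvable.2 h1
  have h3 : ∀ a b : A5, a * b = b * a := h2
  revert h3
  decide +kernel

theorem not_simple [Nontrivial D] : ¬ IsSimpleGroup (A5 × D) := by
  intro h
  have h1 : (((⊤ : Subgroup A5).prod (⊥ : Subgroup D))).Normal := inferInstance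
  rcases h1.eq_bot_or_eq_top with h2 | h2
  · have h3 := congrArg (fun S : Subgroup (A5 × D) => Nat.card S) h2
    simp only [Nat.card_congr (Subgroup.prodEquiv _ _).toEquiv, Nat.card_prod,
      Subgroup.card_top, Subgroup.card_bot, card_A5] at h3
    omega
  · obtain ⟨d, hd⟩ := exists_ne (1 : D)
    have h3 : ((1 : A5), d) ∈ (⊤ : Subgroup A5).prod (⊥ : Subgroup D) := by rw [h2]; trivial
    exact hd (Subgroup.mem_bot.1 (Subgroup.mem_prod.1 h3).2)

end main

/-! ### Three families of `2`-groups -/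

theorem nonNormalOrders_comm (D : Type) [CommGroup D] : nonNormalOrders D = ∅ := by
  rw [Set.eq_empty_iff_forall_notMem]
  rintro n ⟨H, -, hH⟩
  exact hH inferInstance

theorem zpowers_s_not_normal (m : ℕ) : ¬ (Subgroup.zpowers (s m)).Normal := by
  intro h
  have h1 := h.conj_mem (s m) (Subgroup.mem_zpowers _) (x m)
  rw [conj_s] at h1
  have hz : z m ∈ Subgroup.zpowers (s m) := by
    have h2 := Subgroup.mul_mem _ h1 (Subgroup.mem_zpowers (s m))
    rwa [mul_assoc, s_mul_s, mul_one] at h2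
  rw [Subgroup.mem_zpowers_iff] at hz
  obtain ⟨k, hk⟩ := hz
  rcases Int.even_or_odd' k with ⟨l, rfl | rfl⟩
  · rw [zpow_mul, zpow_ofNat, sq, s_mul_s, one_zpow] at hk
    exact z_ne_one hk.symm
  · rw [zpow_add, zpow_mul, zpow_ofNat, sq, s_mul_s, one_zpow, one_mul, zpow_one] at hk
    have : true = false := congrArg MG.u hk
    cases this

theorem card_zpowers_s (m : ℕ) : Nat.card (Subgroup.zpowers (s m)) = 2 := by
  rw [Nat.card_zpowers]
  have hp : Fact (Nat.Prime 2) := ⟨Nat.prime_two⟩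
  exact orderOf_eq_prime (by rw [sq, s_mul_s]) s_ne_one

theorem nonNormalOrders_MG (m : ℕ) : nonNormalOrders (MG m) = {2} := by
  ext n
  rw [Set.mem_singleton_iff]
  constructor
  · rintro ⟨H, rfl, hH⟩
    have h1 : z m ∉ H := fun h => hH (normal_of_mem H h)
    have h2 := card_le_two H h1
    have h3 : Nat.card H ≠ 1 := by
      intro h
      rw [Subgroup.card_eq_one] at h
      apply hH
      rw [h]; infer_instance
    have h4 : 0 < Nat.card H := Nat.card_pos
    omega
  · rintro rfl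
    exact ⟨_, card_zpowers_s m, zpowers_s_not_normal m⟩

/-- the group of order two -/
abbrev C2 : Type := Multiplicative (ZMod 2)

theorem card_C2 : Nat.card C2 = 2 := by
  rw [Nat.card_congr Multiplicative.toAdd, Nat.card_zmod]

theorem nonNormalOrders_MG_prod (m : ℕ) : nonNormalOrders (MG m × C2) = {2, 4} := by
  ext n
  rw [Set.mem_insert_iff, Set.mem_singleton_iff]
  constructor
  · rintro ⟨H, rfl, hH⟩
    have h1 : (z m, (1 : C2)) ∉ H := by
      intro hz
      apply hH
      refine ⟨fun h hh g => ?_⟩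
      have h2 : g.2 * h.2 * g.2⁻¹ = h.2 := by rw [mul_comm g.2, mul_inv_cancel_right]
      rcases conj_cases g.1 h.1 with e | e
      · have : g * h * g⁻¹ = h := Prod.ext e h2
        rw [this]; exact hh
      · have : g * h * g⁻¹ = h * (z m, (1 : C2)) := Prod.ext e (by
          change g.2 * h.2 * g.2⁻¹ = h.2 * 1
          rw [h2, mul_one])
        rw [this]; exact H.mul_mem hh hz
    set K : Subgroup (MG m) := H.comap (MonoidHom.inl (MG m) C2) with hK
    have h2 : z m ∉ K := h1
    have h3 := card_le_two K h2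
    set f : H →* C2 := (MonoidHom.snd (MG m) C2).comp H.subtype with hf
    have h4 : Nat.card f.ker = Nat.card K := by
      refine Nat.card_congr
        { toFun := fun x => ⟨x.1.1.1, ?_⟩
          invFun := fun d => ⟨⟨(d.1, 1), d.2⟩, rfl⟩
          left_inv := ?_
          right_inv := ?_ }
      · have h3 : x.1.1.2 = 1 := x.2
        have h4 := x.1.2
        change (x.1.1.1, (1 : C2)) ∈ H
        have h5 : (x.1.1.1, (1 : C2)) = x.1.1 := Prod.ext rfl h3.symm
        rw [h5]; exact h4
      · intro x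
        have h3 : x.1.1.2 = 1 := x.2
        exact Subtype.ext (Subtype.ext (Prod.ext rfl h3.symm))
      · intro d; rfl
    have h5 : Nat.card H = Nat.card K * Nat.card f.range := by
      rw [← h4, ← Subgroup.index_ker]
      exact (Subgroup.card_mul_index f.ker).symm
    have h6 : Nat.card f.range ≤ 2 := by
      have := Subgroup.card_le_card_group f.range
      rwa [card_C2] at this
    have h7 : Nat.card H ≤ 4 := by rw [h5]; nlinarith
    have h8 : Nat.card H ≠ 1 := by
      intro h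
      rw [Subgroup.card_eq_one] at h
      apply hH
      rw [h]; infer_instance
    have h9 : 0 < Nat.card H := Nat.card_pos
    have h10 : Nat.card H ≠ 3 := by
      intro h
      have h11 := Subgroup.card_subgroup_dvd_card H
      rw [Nat.card_prod, card_MG, card_C2, h, ← pow_succ] at h11
      exact three_not_dvd_two_pow _ h11
    omega
  · rintro (rfl | rfl)
    · refine ⟨(Subgroup.zpowers (s m)).prod ⊥, ?_, ?_⟩
      · rw [Nat.card_congr (Subgroup.prodEquiv _ _).toEquiv, Nat.card_prod, card_zpowers_s,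
          Subgroup.card_bot]
      · intro hn
        apply zpowers_s_not_normal m
        refine ⟨fun y hy g => ?_⟩
        have h1 := hn.conj_mem (y, 1) (Subgroup.mem_prod.2 ⟨hy, Subgroup.one_mem _⟩) (g, 1)
        exact (Subgroup.mem_prod.1 h1).1
    · refine ⟨(Subgroup.zpowers (s m)).prod ⊤, ?_, ?_⟩
      · rw [Nat.card_congr (Subgroup.prodEquiv _ _).toEquiv, Nat.card_prod, card_zpowers_s,
          Subgroup.card_top, card_C2]
      · intro hn
        apply zpowers_s_not_normal m
        refine ⟨fun y hy g => ?_⟩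
        have h1 := hn.conj_mem (y, 1) (Subgroup.mem_prod.2 ⟨hy, Subgroup.one_mem _⟩) (g, 1)
        exact (Subgroup.mem_prod.1 h1).1

theorem exists_two_group (k : ℕ) (hk : 19 ≤ k) :
    ∃ (D : Type) (_ : Group D) (_ : Finite D) (_ : Nontrivial D) (a : ℕ),
      Nat.card D = 2 ^ a ∧ 3 * a + 7 + ie D = k := by
  have h3 : k % 3 = 0 ∨ k % 3 = 1 ∨ k % 3 = 2 := by omega
  rcases h3 with h | h | h
  · obtain ⟨m, rfl⟩ : ∃ m, k = 3 * m + 21 := ⟨(k - 21) / 3, by omega⟩
    have hc : Nat.card (MG m × C2) = 2 ^ (m + 4) := by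
      rw [Nat.card_prod, card_MG, card_C2, ← pow_succ]
    refine ⟨MG m × C2, inferInstance, inferInstance, ?_, m + 4, hc, ?_⟩
    · exact ⟨(s m, 1), 1, fun h => s_ne_one (congrArg Prod.fst h)⟩
    · rw [ie, nonNormalOrders_MG_prod, Set.ncard_pair (by norm_num)]
      ring
  · obtain ⟨m, rfl⟩ : ∃ m, k = 3 * (m + 1) + 7 := ⟨(k - 10) / 3, by omega⟩
    have : NeZero (2 ^ (m + 1)) := ⟨by positivity⟩
    refine ⟨Multiplicative (ZMod (2 ^ (m + 1))), inferInstance, inferInstance, ?_, m + 1, ?_, ?_⟩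
    · have : Fact (1 < 2 ^ (m + 1)) := ⟨Nat.one_lt_two_pow (by omega)⟩
      infer_instance
    · rw [Nat.card_congr Multiplicative.toAdd, Nat.card_zmod]
    · rw [ie, nonNormalOrders_comm, Set.ncard_empty]
  · obtain ⟨m, rfl⟩ : ∃ m, k = 3 * m + 17 := ⟨(k - 17) / 3, by omega⟩
    refine ⟨MG m, inferInstance, inferInstance, ?_, m + 3, card_MG, ?_⟩
    · exact ⟨s m, 1, s_ne_one⟩
    · rw [ie, nonNormalOrders_MG, Set.ncard_singleton]
      ring

theorem exists_group (k : ℕ) (hk : 19 ≤ k) :
    ∃ (G : Type) (_ : Group G) (_ : Finite G),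
      ¬ Group.IsSolvable G ∧ ¬ IsSimpleGroup G ∧ ie G = k := by
  obtain ⟨D, _, _, _, a, hD, rfl⟩ := exists_two_group k hk
  exact ⟨A5 × D, inferInstance, inferInstance, not_solvable, not_simple, ie_prod hD⟩

/-- **Main theorem.**  Every integer `k ≥ 19` is `ie(G)` for some finite group `G` that is neither
soluble nor simple.  Hence the set of soluble group-theoretic numbers and the set of absolutely
simple group-theoretic numbers are both finite (contained in `{1, …, 18}`). -/
theorem result :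
    (∀ k : ℕ, 19 ≤ k → ∃ (G : Type) (_ : Group G) (_ : Finite G),
      ¬ Group.IsSolvable G ∧ ¬ IsSimpleGroup G ∧ ie G = k) ∧
    (∀ k : ℕ, IsSolubleNumber k → k ≤ 18) ∧
    (∀ k : ℕ, IsAbsolutelySimpleNumber k → k ≤ 18) ∧
    {k : ℕ | IsSolubleNumber k}.Finite ∧
    {k : ℕ | IsAbsolutelySimpleNumber k}.Finite := by
  have h1 : ∀ k : ℕ, IsSolubleNumber k → k ≤ 18 := by
    rintro k ⟨-, hk⟩
    by_contra hcon
    push Not at hcon
    obtain ⟨G, _, _, h1, -, h3⟩ := exists_group k hcon
    exact h1 (hk G h3)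
  have h2 : ∀ k : ℕ, IsAbsolutelySimpleNumber k → k ≤ 18 := by
    rintro k ⟨-, hk⟩
    by_contra hcon
    push Not at hcon
    exact hk (exists_group k hcon)
  exact ⟨exists_group, h1, h2, (Set.finite_le_nat 18).subset h1,
    (Set.finite_le_nat 18).subset h2⟩

end Pool.Agent.Results.MP_927db0_al.BothSetsFinite
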